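import Pool.Agent.K1H47.RC.Stm

set_option autoImplicit false

/-! `S_STRICT`: joint strict differentiability of an analytic family. -/

namespace Pool.Agent.K1H99.RC

open Topology Filter Pool.Agent.K1H47.RC

theorem hasSum_norm_le {L : Type} [NormedField L] [IsUltrametricDist L] {f : ℕ → L} {s : L}
    (h : HasSum f s) {B : ℝ} (hB : 0 ≤ B) (hf : ∀ k, ‖f k‖ ≤ B) : ‖s‖ ≤ B := by
  refine le_of_tendsto h.norm (Eventually.of_forall fun T => ?_)
  exact IsUltrametricDist.norm_sum_le_of_forall_le_of_nonneg hB fun i _ => hf i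

theorem norm_natCast_mul_le {L : Type} [NormedField L] [IsUltrametricDist L] (n : ℕ) (x : L) :
    ‖(n : L) * x‖ ≤ ‖x‖ := by
  rw [norm_mul]
  have := IsUltrametricDist.norm_natCast_le_one L n
  nlinarith [norm_nonneg x]

theorem norm_pow_le {L : Type} [NormedField L] {t : L} (ht : ‖t‖ ≤ 1) (k : ℕ) : ‖t ^ k‖ ≤ 1 := by
  rw [norm_pow]; exact pow_le_one₀ (norm_nonneg _) ht

/-- `|t^k - t'^k| ≤ |t - t'|` on the unit ball -/
theorem norm_pow_sub_le {L : Type} [NormedField L] [IsUltrametricDist L] {t t' : L}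
    (ht : ‖t‖ ≤ 1) (ht' : ‖t'‖ ≤ 1) (k : ℕ) : ‖t ^ k - t' ^ k‖ ≤ ‖t - t'‖ := by
  rw [← (Commute.all t t').mul_geom_sum₂ k, norm_mul]
  have : ‖∑ i ∈ Finset.range k, t ^ i * t' ^ (k - 1 - i)‖ ≤ 1 := by
    refine IsUltrametricDist.norm_sum_le_of_forall_le_of_nonneg zero_le_one fun i _ => ?_
    rw [norm_mul]
    exact mul_le_one₀ (norm_pow_le ht i) (norm_nonneg _) (norm_pow_le ht' _)
  nlinarith [norm_nonneg (t - t')]

/-- second order estimate for powers -/
theorem norm_pow_sub_sub_le {L : Type} [NormedField L] [IsUltrametricDist L] {t t' t₁ : L}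
    (ht : ‖t‖ ≤ 1) (ht' : ‖t'‖ ≤ 1) (ht₁ : ‖t₁‖ ≤ 1) (k : ℕ) :
    ‖t ^ (k + 1) - t' ^ (k + 1) - ((k + 1 : ℕ) : L) * t₁ ^ k * (t - t')‖ ≤
      ‖t - t'‖ * max ‖t - t₁‖ ‖t' - t₁‖ := by
  have e : t ^ (k + 1) - t' ^ (k + 1) - ((k + 1 : ℕ) : L) * t₁ ^ k * (t - t') =
      (t - t') * ∑ i ∈ Finset.range (k + 1), (t ^ i * t' ^ (k - i) - t₁ ^ k) := by
    rw [Finset.sum_sub_distrib, Finset.sum_const, Finset.card_range, nsmul_eq_mul, mul_sub,
      ← (Commute.all t t').mul_geom_sum₂ (k + 1)]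
    simp only [Nat.add_sub_cancel]
    ring
  rw [e, norm_mul]
  refine mul_le_mul_of_nonneg_left ?_ (norm_nonneg _)
  refine IsUltrametricDist.norm_sum_le_of_forall_le_of_nonneg
    (le_max_of_le_left (norm_nonneg _)) fun i hi => ?_
  have hik : i ≤ k := Nat.lt_succ_iff.mp (Finset.mem_range.mp hi)
  have e2 : t ^ i * t' ^ (k - i) - t₁ ^ k =
      (t ^ i - t₁ ^ i) * t' ^ (k - i) + t₁ ^ i * (t' ^ (k - i) - t₁ ^ (k - i)) := by
    have : t₁ ^ k = t₁ ^ i * t₁ ^ (k - i) := by rw [← pow_add, Nat.add_sub_cancel' hik]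
    rw [this]; ring
  rw [e2]
  refine (IsUltrametricDist.norm_add_le_max _ _).trans (max_le_max ?_ ?_)
  · rw [norm_mul]
    have h1 := norm_pow_sub_le ht ht₁ i
    have h2 := norm_pow_le ht' (k - i)
    nlinarith [norm_nonneg (t ^ i - t₁ ^ i), norm_nonneg (t' ^ (k - i))]
  · rw [norm_mul]
    have h1 := norm_pow_sub_le ht' ht₁ (k - i)
    have h2 := norm_pow_le ht₁ i
    nlinarith [norm_nonneg (t' ^ (k - i) - t₁ ^ (k - i)), norm_nonneg (t₁ ^ i)]

theorem mul4_le {a b x y : ℝ} (ha : 0 ≤ a) (hx : 0 ≤ x) (hab : a ≤ b) (hxy : x ≤ y) :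
    a * x ≤ b * y := mul_le_mul hab hxy hx (ha.trans hab)

theorem t_STRICT : S_STRICT := by
  intro L _ _ _ ι _ r hr0 hr1 c c' hF s₁ t₁ hs₁ ht₁
  classical
  have hgeo : Summable fun k : ℕ => r ^ k := summable_geometric_of_lt_one hr0 hr1
  have hrk : ∀ k : ℕ, 0 ≤ r ^ k := fun k => pow_nonneg hr0 k
  have hrk1 : ∀ k : ℕ, r ^ k ≤ 1 := fun k => pow_le_one₀ hr0 hr1.le
  -- summability
  have hsum : ∀ (i : ι) (s t : L), ‖s‖ ≤ 1 → ‖t‖ ≤ 1 → Summable fun k => c i k s * t ^ k := by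
    intro i s t hs ht
    refine Summable.of_norm_bounded hgeo fun k => ?_
    rw [norm_mul]
    have h1 := (hF i k).1 s hs
    have h2 := norm_pow_le ht k
    nlinarith [norm_nonneg (c i k s), norm_nonneg (t ^ k), hrk k]
  have hsum' : ∀ (i : ι) (s t : L), ‖s‖ ≤ 1 → ‖t‖ ≤ 1 → Summable fun k => c' i k s * t ^ k := by
    intro i s t hs ht
    refine Summable.of_norm_bounded hgeo fun k => ?_
    rw [norm_mul]
    have h1 := (hF i k).2.1 s hs
    have h2 := norm_pow_le ht k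
    nlinarith [norm_nonneg (c' i k s), norm_nonneg (t ^ k), hrk k]
  have hsumt : ∀ (i : ι), Summable fun k => ((k + 1 : ℕ) : L) * c i (k + 1) s₁ * t₁ ^ k := by
    intro i
    refine Summable.of_norm_bounded ((summable_nat_add_iff 1).mpr hgeo) fun k => ?_
    rw [mul_assoc]
    refine (norm_natCast_mul_le _ _).trans ?_
    rw [norm_mul]
    have h1 := (hF i (k + 1)).1 s₁ hs₁
    have h2 := norm_pow_le ht₁ k
    nlinarith [norm_nonneg (c i (k + 1) s₁), norm_nonneg (t₁ ^ k), hrk (k + 1)]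
  -- the derivative
  let D : L × L →L[L] (ι → L) :=
    (ContinuousLinearMap.fst L L L).smulRight (ev c' s₁ t₁) +
      (ContinuousLinearMap.snd L L L).smulRight (evt c s₁ t₁)
  have hD : ∀ x y : L, D (x, y) = x • ev c' s₁ t₁ + y • evt c s₁ t₁ := by
    intro x y
    simp [D]
  refine ⟨D, hD, ?_⟩
  -- the main estimate
  have key : ∀ (i : ι) (s s' t t' : L), ‖s‖ ≤ 1 → ‖s'‖ ≤ 1 → ‖t‖ ≤ 1 → ‖t'‖ ≤ 1 →
      ‖ev c s t i - ev c s' t' i - ((s - s') * ev c' s₁ t₁ i + (t - t') * evt c s₁ t₁ i)‖ ≤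
      max ‖s - s'‖ ‖t - t'‖ *
        max (max ‖s - s₁‖ ‖s' - s₁‖) (max ‖t - t₁‖ ‖t' - t₁‖) := by
    intro i s s' t t' hs hs' ht ht'
    set M : ℝ := max ‖s - s'‖ ‖t - t'‖ with hM
    set m : ℝ := max (max ‖s - s₁‖ ‖s' - s₁‖) (max ‖t - t₁‖ ‖t' - t₁‖) with hm
    have hM0 : 0 ≤ M := le_max_of_le_left (norm_nonneg _)
    have hm0 : 0 ≤ m := le_max_of_le_left (le_max_of_le_left (norm_nonneg _))
    have hMs : ‖s - s'‖ ≤ M := le_max_left _ _
    have hMt : ‖t - t'‖ ≤ M := le_max_right _ _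
    have hms : max ‖s - s₁‖ ‖s' - s₁‖ ≤ m := le_max_left _ _
    have hmt : max ‖t - t₁‖ ‖t' - t₁‖ ≤ m := le_max_right _ _
    have hms2 : ‖s' - s₁‖ ≤ m := (le_max_right _ _).trans hms
    have hmt1 : ‖t - t₁‖ ≤ m := (le_max_left _ _).trans hmt
    -- derivative in t as a sum over all k
    let g : ℕ → L := fun k => match k with
      | 0 => 0
      | k + 1 => ((k + 1 : ℕ) : L) * c i (k + 1) s₁ * t₁ ^ k
    have hg : HasSum g (evt c s₁ t₁ i) := by
      have h := (hsumt i).hasSum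
      have h2 := (hasSum_nat_add_iff (f := g) 1).mp (by simpa [g] using h)
      simpa [g, evt] using h2
    have hS : HasSum (fun k => c i k s * t ^ k - c i k s' * t' ^ k -
        ((s - s') * (c' i k s₁ * t₁ ^ k) + (t - t') * g k))
        (ev c s t i - ev c s' t' i -
          ((s - s') * ev c' s₁ t₁ i + (t - t') * evt c s₁ t₁ i)) := by
      have h1 := (hsum i s t hs ht).hasSum
      have h2 := (hsum i s' t' hs' ht').hasSum
      have h3 := ((hsum' i s₁ t₁ hs₁ ht₁).hasSum).mul_left (s - s')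
      have h4 := hg.mul_left (t - t')
      exact (h1.sub h2).sub (h3.add h4)
    refine hasSum_norm_le hS (mul_nonneg hM0 hm0) fun k => ?_
    -- differences of the coefficients
    have hdiff : ‖c i k s' - c i k s₁‖ ≤ r ^ k * ‖s' - s₁‖ := by
      have h := (hF i k).2.2 s' s₁ s₁ hs' hs₁ hs₁
      have h2 : ‖c' i k s₁ * (s' - s₁)‖ ≤ r ^ k * ‖s' - s₁‖ := by
        rw [norm_mul]
        exact mul_le_mul_of_nonneg_right ((hF i k).2.1 s₁ hs₁) (norm_nonneg _)
      have h3 : r ^ k * (‖s' - s₁‖ * max ‖s' - s₁‖ ‖s₁ - s₁‖) ≤ r ^ k * ‖s' - s₁‖ := by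
        refine mul_le_mul_of_nonneg_left ?_ (hrk k)
        have hle : max ‖s' - s₁‖ ‖s₁ - s₁‖ ≤ 1 := by
          refine max_le ?_ (by simp)
          rw [sub_eq_add_neg]
          exact (IsUltrametricDist.norm_add_le_max _ _).trans
            (max_le hs' (by rw [norm_neg]; exact hs₁))
        nlinarith [norm_nonneg (s' - s₁)]
      have e : c i k s' - c i k s₁ =
          (c i k s' - c i k s₁ - c' i k s₁ * (s' - s₁)) + c' i k s₁ * (s' - s₁) := by ring
      rw [e]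
      exact (IsUltrametricDist.norm_add_le_max _ _).trans (max_le (h.trans h3) h2)
    have hc1 := (hF i k).1 s₁ hs₁
    have hc'1 := (hF i k).2.1 s₁ hs₁
    have A1 : ‖(c i k s - c i k s' - c' i k s₁ * (s - s')) * t ^ k‖ ≤ M * m := by
      rw [norm_mul]
      have h := (hF i k).2.2 s s' s₁ hs hs' hs₁
      have h2 := norm_pow_le ht k
      have h3 : r ^ k * (‖s - s'‖ * max ‖s - s₁‖ ‖s' - s₁‖) ≤ 1 * (M * m) :=
        mul4_le (hrk k) (by positivity) (hrk1 k)
          (mul4_le (norm_nonneg _) (le_max_of_le_left (norm_nonneg _)) hMs hms)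
      calc _ ≤ (M * m) * 1 := mul4_le (norm_nonneg _) (norm_nonneg _)
            (by rw [one_mul] at h3; exact h.trans h3) h2
        _ = M * m := mul_one _
    have A2 : ‖c' i k s₁ * (s - s') * (t ^ k - t₁ ^ k)‖ ≤ M * m := by
      rw [norm_mul, norm_mul]
      have h2 := norm_pow_sub_le ht ht₁ k
      calc _ ≤ (1 * M) * m := mul4_le (by positivity) (norm_nonneg _)
            (mul4_le (norm_nonneg _) (norm_nonneg _) (hc'1.trans (hrk1 k)) hMs)
            (h2.trans hmt1)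
        _ = M * m := by ring
    have A3 : ‖(c i k s' - c i k s₁) * (t ^ k - t' ^ k)‖ ≤ M * m := by
      rw [norm_mul]
      have h2 := norm_pow_sub_le ht ht' k
      have h3 : ‖c i k s' - c i k s₁‖ ≤ m := by
        refine hdiff.trans ?_
        calc _ ≤ 1 * m := mul4_le (hrk k) (norm_nonneg _) (hrk1 k) hms2
          _ = m := one_mul _
      calc _ ≤ m * M := mul4_le (norm_nonneg _) (norm_nonneg _) h3 (h2.trans hMt)
        _ = M * m := by ring
    rcases k with _ | k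
    · have e : c i 0 s * t ^ 0 - c i 0 s' * t' ^ 0 -
          ((s - s') * (c' i 0 s₁ * t₁ ^ 0) + (t - t') * g 0) =
          (c i 0 s - c i 0 s' - c' i 0 s₁ * (s - s')) * t ^ 0 := by
        simp [g]; ring
      rw [e]
      exact A1
    · have A4 : ‖c i (k + 1) s₁ *
          (t ^ (k + 1) - t' ^ (k + 1) - ((k + 1 : ℕ) : L) * t₁ ^ k * (t - t'))‖ ≤ M * m := by
        rw [norm_mul]
        have h := norm_pow_sub_sub_le ht ht' ht₁ k
        calc _ ≤ 1 * (M * m) := mul4_le (norm_nonneg _) (norm_nonneg _) (hc1.trans (hrk1 _))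
              (h.trans (mul4_le (norm_nonneg _) (le_max_of_le_left (norm_nonneg _)) hMt hmt))
          _ = M * m := one_mul _
      have e : c i (k + 1) s * t ^ (k + 1) - c i (k + 1) s' * t' ^ (k + 1) -
          ((s - s') * (c' i (k + 1) s₁ * t₁ ^ (k + 1)) + (t - t') * g (k + 1)) =
          ((c i (k + 1) s - c i (k + 1) s' - c' i (k + 1) s₁ * (s - s')) * t ^ (k + 1) +
            c' i (k + 1) s₁ * (s - s') * (t ^ (k + 1) - t₁ ^ (k + 1))) +
          ((c i (k + 1) s' - c i (k + 1) s₁) * (t ^ (k + 1) - t' ^ (k + 1)) +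
            c i (k + 1) s₁ *
              (t ^ (k + 1) - t' ^ (k + 1) - ((k + 1 : ℕ) : L) * t₁ ^ k * (t - t'))) := by
        simp only [g]; ring
      rw [e]
      refine (IsUltrametricDist.norm_add_le_max _ _).trans (max_le ?_ ?_)
      · exact (IsUltrametricDist.norm_add_le_max _ _).trans (max_le A1 A2)
      · exact (IsUltrametricDist.norm_add_le_max _ _).trans (max_le A3 A4)
  -- strict differentiability
  refine HasStrictFDerivAt.of_isLittleO ?_
  rw [Asymptotics.isLittleO_iff]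
  intro ε hε
  -- a neighbourhood
  have hnear : ∀ᶠ q : (L × L) × (L × L) in 𝓝 ((s₁, t₁), (s₁, t₁)),
      ‖q - ((s₁, t₁), (s₁, t₁))‖ < min ε 1 := by
    have : Tendsto (fun q : (L × L) × (L × L) => ‖q - ((s₁, t₁), (s₁, t₁))‖)
        (𝓝 ((s₁, t₁), (s₁, t₁))) (𝓝 0) := by
      have h : Tendsto (fun q : (L × L) × (L × L) => ‖q - ((s₁, t₁), (s₁, t₁))‖)
        (𝓝 ((s₁, t₁), (s₁, t₁))) (𝓝 ‖((s₁, t₁), (s₁, t₁)) - ((s₁, t₁), (s₁, t₁))‖) :=
        (continuous_norm.comp (continuous_id.sub continuous_const)).tendsto _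
      simpa using h
    exact this.eventually (gt_mem_nhds (lt_min hε one_pos))
  filter_upwards [hnear] with q hq
  obtain ⟨⟨s, t⟩, ⟨s', t'⟩⟩ := q
  have hq' : max (max ‖s - s₁‖ ‖t - t₁‖) (max ‖s' - s₁‖ ‖t' - t₁‖) < min ε 1 := by
    simpa [Prod.norm_def] using hq
  have hs1 : ‖s - s₁‖ < min ε 1 := (le_max_left _ _).trans (le_max_left _ _) |>.trans_lt hq'
  have ht1 : ‖t - t₁‖ < min ε 1 := (le_max_right _ _).trans (le_max_left _ _) |>.trans_lt hq'
  have hs1' : ‖s' - s₁‖ < min ε 1 := (le_max_left _ _).trans (le_max_right _ _) |>.trans_lt hq'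
  have ht1' : ‖t' - t₁‖ < min ε 1 := (le_max_right _ _).trans (le_max_right _ _) |>.trans_lt hq'
  have unit : ∀ x x₁ : L, ‖x₁‖ ≤ 1 → ‖x - x₁‖ < min ε 1 → ‖x‖ ≤ 1 := by
    intro x x₁ h1 h2
    have e : x = (x - x₁) + x₁ := by ring
    rw [e]
    exact (IsUltrametricDist.norm_add_le_max _ _).trans
      (max_le (h2.le.trans (min_le_right _ _)) h1)
  have hs := unit s s₁ hs₁ hs1
  have ht := unit t t₁ ht₁ ht1
  have hs' := unit s' s₁ hs₁ hs1'
  have ht' := unit t' t₁ ht₁ ht1'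
  have hsub : (((s, t), (s', t')) : (L × L) × (L × L)).1 - (((s, t), (s', t')) : (L × L) × (L × L)).2
      = (s - s', t - t') := rfl
  rw [hsub, hD]
  refine (pi_norm_le_iff_of_nonneg (mul_nonneg hε.le (norm_nonneg _))).mpr fun i => ?_
  have hk := key i s s' t t' hs hs' ht ht'
  have e1 : ((fun q : L × L => ev c q.1 q.2) (s, t) - (fun q : L × L => ev c q.1 q.2) (s', t') -
      ((s - s') • ev c' s₁ t₁ + (t - t') • evt c s₁ t₁)) i =
      ev c s t i - ev c s' t' i - ((s - s') * ev c' s₁ t₁ i + (t - t') * evt c s₁ t₁ i) := by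
    simp [Pi.sub_apply, Pi.add_apply, Pi.smul_apply, smul_eq_mul]
  simp only [Pi.sub_apply, Pi.add_apply, Pi.smul_apply, smul_eq_mul] at hk ⊢
  refine hk.trans ?_
  rw [Prod.norm_def, mul_comm]
  refine mul_le_mul_of_nonneg_right ?_ (le_max_of_le_left (norm_nonneg _))
  refine max_le (max_le ?_ ?_) (max_le ?_ ?_)
  · exact hs1.le.trans (min_le_left _ _)
  · exact hs1'.le.trans (min_le_left _ _)
  · exact ht1.le.trans (min_le_left _ _)
  · exact ht1'.le.trans (min_le_left _ _)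

end Pool.Agent.K1H99.RC
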