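import Pool.Agent.K1H47.RC.Stm

set_option autoImplicit false

/-! `S_DENSE`: simultaneous approximation. -/

namespace Pool.Agent.K1H99.RC

open Topology Filter Pool.Agent.K1H47.RC

theorem exists_nat_near {p : ℕ} [hp : Fact p.Prime] (x : ℚ_[p]) (hx : ‖x‖ ≤ 1) {ε : ℝ} (hε : 0 < ε) :
    ∃ n e : ℕ, ‖(n : ℚ_[p]) - x‖ < ε ∧ (p : ℝ) ^ (-(e : ℤ)) < ε := by
  have hp1 : (1 : ℝ) < p := by exact_mod_cast hp.out.one_lt
  obtain ⟨e, he⟩ : ∃ e : ℕ, ((p : ℝ)⁻¹) ^ e < ε :=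
    exists_pow_lt_of_lt_one hε (inv_lt_one_of_one_lt₀ hp1)
  have he' : (p : ℝ) ^ (-(e : ℤ)) < ε := by
    rw [zpow_neg, zpow_natCast, ← inv_pow]; exact he
  refine ⟨PadicInt.appr ⟨x, hx⟩ e, e, ?_, he'⟩
  have h := PadicInt.appr_spec e (⟨x, hx⟩ : ℤ_[p])
  rw [← PadicInt.norm_le_pow_iff_mem_span_pow] at h
  have h2 : ‖x - ((PadicInt.appr ⟨x, hx⟩ e : ℕ) : ℚ_[p])‖ ≤ (p : ℝ) ^ (-(e : ℤ)) := by
    rw [PadicInt.norm_def] at h
    exact h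
  rw [norm_sub_rev]
  exact h2.trans_lt he'

theorem dense_nat (ι : Type) [Finite ι] (p : ι → ℕ) [hp : ∀ i, Fact (p i).Prime]
    (hinj : Function.Injective p) (x : ∀ i, ℚ_[p i]) (hx : ∀ i, ‖x i‖ ≤ 1) (ε : ι → ℝ)
    (hε : ∀ i, 0 < ε i) : ∃ m : ℕ, ∀ i, ‖(m : ℚ_[p i]) - x i‖ < ε i := by
  classical
  have := Fintype.ofFinite ι
  choose n e h1 h2 using fun i => exists_nat_near (x i) (hx i) (hε i)
  have hcop : Set.Pairwise ((Finset.univ : Finset ι) : Set ι)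
      (Function.onFun Nat.Coprime fun i => p i ^ e i) := by
    intro i _ j _ hij
    exact Nat.Coprime.pow _ _ ((Nat.coprime_primes (hp i).out (hp j).out).mpr (hinj.ne hij))
  obtain ⟨m, hm⟩ := Nat.chineseRemainderOfFinset n (fun i => p i ^ e i) Finset.univ
    (fun i _ => pow_ne_zero _ (hp i).out.ne_zero) hcop
  refine ⟨m, fun i => ?_⟩
  have hd : ((p i : ℤ) ^ e i) ∣ ((m : ℤ) - n i) := by
    have h := (Nat.modEq_iff_dvd.mp (hm i (Finset.mem_univ i)).symm)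
    simpa using h
  have h3 : ‖(((m : ℤ) - n i : ℤ) : ℚ_[p i])‖ ≤ (p i : ℝ) ^ (-(e i : ℤ)) :=
    (Padic.norm_int_le_pow_iff_dvd _ _).mpr (by exact_mod_cast hd)
  have e1 : (m : ℚ_[p i]) - x i = (((m : ℤ) - n i : ℤ) : ℚ_[p i]) + ((n i : ℚ_[p i]) - x i) := by
    push_cast; ring
  rw [e1]
  exact (Padic.nonarchimedean _ _).trans_lt (max_lt (h3.trans_lt (h2 i)) (h1 i))

theorem t_DENSE : S_DENSE := by
  intro ι _ p hp hinj
  classical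
  have := Fintype.ofFinite ι
  refine ⟨fun x hx ε hε => dense_nat ι p hinj x hx (fun _ => ε) fun _ => hε, fun x ε hε => ?_⟩
  -- a common denominator
  have hden : ∀ i, ∃ e : ℕ, ‖((p i : ℚ_[p i]) ^ e) * x i‖ ≤ 1 := by
    intro i
    have hp1 : (1 : ℝ) < p i := by exact_mod_cast (hp i).out.one_lt
    obtain ⟨e, he⟩ := pow_unbounded_of_one_lt ‖x i‖ hp1
    refine ⟨e, ?_⟩
    rw [norm_mul, norm_pow, Padic.norm_p, inv_pow]
    rw [inv_mul_le_iff₀ (by positivity)]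
    linarith
  choose e he using hden
  let M : ℕ := ∏ i, p i ^ e i
  have hM0 : M ≠ 0 := Finset.prod_ne_zero_iff.mpr fun i _ => pow_ne_zero _ (hp i).out.ne_zero
  have hMx : ∀ i, ‖(M : ℚ_[p i]) * x i‖ ≤ 1 := by
    intro i
    have hfac : M = p i ^ e i * ∏ j ∈ Finset.univ.erase i, p j ^ e j :=
      (Finset.mul_prod_erase Finset.univ (fun j => p j ^ e j) (Finset.mem_univ i)).symm
    rw [hfac, Nat.cast_mul, mul_comm ((p i ^ e i : ℕ) : ℚ_[p i]), mul_assoc, norm_mul]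
    have h1 : ‖((∏ j ∈ Finset.univ.erase i, p j ^ e j : ℕ) : ℚ_[p i])‖ ≤ 1 := by
      have := Padic.norm_int_le_one (p := p i) ((∏ j ∈ Finset.univ.erase i, p j ^ e j : ℕ) : ℤ)
      rwa [Int.cast_natCast] at this
    have h2 : ‖((p i ^ e i : ℕ) : ℚ_[p i]) * x i‖ ≤ 1 := by
      rw [Nat.cast_pow]; exact he i
    nlinarith [norm_nonneg ((∏ j ∈ Finset.univ.erase i, p j ^ e j : ℕ) : ℚ_[p i]),
      norm_nonneg (((p i ^ e i : ℕ) : ℚ_[p i]) * x i)]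
  have hMi : ∀ i, (M : ℚ_[p i]) ≠ 0 := fun i => by exact_mod_cast hM0
  obtain ⟨m, hm⟩ := dense_nat ι p hinj (fun i => (M : ℚ_[p i]) * x i) hMx
    (fun i => ε * ‖(M : ℚ_[p i])‖) fun i => mul_pos hε (norm_pos_iff.mpr (hMi i))
  refine ⟨(m : ℚ) / M, fun i => ?_⟩
  have e1 : (((m : ℚ) / M : ℚ) : ℚ_[p i]) - x i = ((m : ℚ_[p i]) - M * x i) / M := by
    have := hMi i
    push_cast
    field_simp
  rw [e1, norm_div, div_lt_iff₀ (norm_pos_iff.mpr (hMi i))]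
  exact hm i

end Pool.Agent.K1H99.RC
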